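import Pool.Agent.Lib.MP_1f24c5_co.G.GEx

/-!
# Kernel evaluation
-/

set_option maxRecDepth 100000

namespace Makela

namespace Gadget

def cert0 : G.cert0 = true := by decide +kernel

def certX0 : G.certX false = true := by decide +kernel

def certX1 : G.certX true = true := by decide +kernel

def certP0 : G.certP false = true := by decide +kernel

def certP1 : G.certP true = true := by decide +kernel

end Gadget

end Makela
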