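import Pool.Agent.Lib.MP_1f24c5_co.G.GEx

/-!
# Kernel evaluation
-/

set_option maxRecDepth 100000

namespace Makela

namespace Gadget

def d0 : G.loopD (chunks 0) (2 + 64 * 0) = true := by decide +kernel

def d1 : G.loopD (chunks 1) (2 + 64 * 1) = true := by decide +kernel

def d2 : G.loopD (chunks 2) (2 + 64 * 2) = true := by decide +kernel

def d3 : G.loopD (chunks 3) (2 + 64 * 3) = true := by decide +kernel

def d4 : G.loopD (chunks 4) (2 + 64 * 4) = true := by decide +kernel

def d5 : G.loopD (chunks 5) (2 + 64 * 5) = true := by decide +kernel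

def d6 : G.loopD (chunks 6) (2 + 64 * 6) = true := by decide +kernel

def d7 : G.loopD (chunks 7) (2 + 64 * 7) = true := by decide +kernel

def d8 : G.loopD (chunks 8) (2 + 64 * 8) = true := by decide +kernel

def d9 : G.loopD (chunks 9) (2 + 64 * 9) = true := by decide +kernel

def d10 : G.loopD (chunks 10) (2 + 64 * 10) = true := by decide +kernel

def d11 : G.loopD (chunks 11) (2 + 64 * 11) = true := by decide +kernel

def d12 : G.loopD (chunks 12) (2 + 64 * 12) = true := by decide +kernel

def d13 : G.loopD (chunks 13) (2 + 64 * 13) = true := by decide +kernel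

def d14 : G.loopD (chunks 14) (2 + 64 * 14) = true := by decide +kernel

def d15 : G.loopD (chunks 15) (2 + 64 * 15) = true := by decide +kernel

def d16 : G.loopD (chunks 16) (2 + 64 * 16) = true := by decide +kernel

def d17 : G.loopD (chunks 17) (2 + 64 * 17) = true := by decide +kernel

def d18 : G.loopD (chunks 18) (2 + 64 * 18) = true := by decide +kernel

def d19 : G.loopD (chunks 19) (2 + 64 * 19) = true := by decide +kernel

def d20 : G.loopD (chunks 20) (2 + 64 * 20) = true := by decide +kernel

def d21 : G.loopD (chunks 21) (2 + 64 * 21) = true := by decide +kernel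

def d22 : G.loopD (chunks 22) (2 + 64 * 22) = true := by decide +kernel

def d23 : G.loopD (chunks 23) (2 + 64 * 23) = true := by decide +kernel

end Gadget

end Makela
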