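import Pool.Agent.Lib.MP_1f24c5_co.G.GEx

/-!
# Kernel evaluation
-/

set_option maxRecDepth 100000

namespace Makela

namespace Gadget

def m216 : G.loopM 64 (2 + 64 * 216) = true := by decide +kernel

def m217 : G.loopM 64 (2 + 64 * 217) = true := by decide +kernel

def m218 : G.loopM 64 (2 + 64 * 218) = true := by decide +kernel

def m219 : G.loopM 64 (2 + 64 * 219) = true := by decide +kernel

def m220 : G.loopM 64 (2 + 64 * 220) = true := by decide +kernel

def m221 : G.loopM 64 (2 + 64 * 221) = true := by decide +kernel

def m222 : G.loopM 64 (2 + 64 * 222) = true := by decide +kernel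

def m223 : G.loopM 64 (2 + 64 * 223) = true := by decide +kernel

def m224 : G.loopM 64 (2 + 64 * 224) = true := by decide +kernel

def m225 : G.loopM 64 (2 + 64 * 225) = true := by decide +kernel

def m226 : G.loopM 64 (2 + 64 * 226) = true := by decide +kernel

def m227 : G.loopM 64 (2 + 64 * 227) = true := by decide +kernel

def m228 : G.loopM 64 (2 + 64 * 228) = true := by decide +kernel

def m229 : G.loopM 64 (2 + 64 * 229) = true := by decide +kernel

def m230 : G.loopM 64 (2 + 64 * 230) = true := by decide +kernel

def m231 : G.loopM 64 (2 + 64 * 231) = true := by decide +kernel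

def m232 : G.loopM 64 (2 + 64 * 232) = true := by decide +kernel

def m233 : G.loopM 64 (2 + 64 * 233) = true := by decide +kernel

end Gadget

end Makela
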