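import Pool.Agent.Lib.MP_1f24c5_co.G.GEx

/-!
# Kernel evaluation
-/

set_option maxRecDepth 100000

namespace Makela

namespace Gadget

def h0 : G.exLoop (chunks 0) (2 + 64 * 0) = true := by decide +kernel

def h1 : G.exLoop (chunks 1) (2 + 64 * 1) = true := by decide +kernel

def h2 : G.exLoop (chunks 2) (2 + 64 * 2) = true := by decide +kernel

def h3 : G.exLoop (chunks 3) (2 + 64 * 3) = true := by decide +kernel

def h4 : G.exLoop (chunks 4) (2 + 64 * 4) = true := by decide +kernel

def h5 : G.exLoop (chunks 5) (2 + 64 * 5) = true := by decide +kernel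

def h6 : G.exLoop (chunks 6) (2 + 64 * 6) = true := by decide +kernel

def h7 : G.exLoop (chunks 7) (2 + 64 * 7) = true := by decide +kernel

end Gadget

end Makela
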