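import Pool.Agent.Lib.MP_1f24c5_co.G.GEx

/-!
# Kernel evaluation
-/

set_option maxRecDepth 100000

namespace Makela

namespace Gadget

def h16 : G.exLoop (chunks 16) (2 + 64 * 16) = true := by decide +kernel

def h17 : G.exLoop (chunks 17) (2 + 64 * 17) = true := by decide +kernel

def h18 : G.exLoop (chunks 18) (2 + 64 * 18) = true := by decide +kernel

def h19 : G.exLoop (chunks 19) (2 + 64 * 19) = true := by decide +kernel

def h20 : G.exLoop (chunks 20) (2 + 64 * 20) = true := by decide +kernel

def h21 : G.exLoop (chunks 21) (2 + 64 * 21) = true := by decide +kernel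

def h22 : G.exLoop (chunks 22) (2 + 64 * 22) = true := by decide +kernel

def h23 : G.exLoop (chunks 23) (2 + 64 * 23) = true := by decide +kernel

end Gadget

end Makela
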