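import Pool.Agent.Lib.MP_1f24c5_co.G.GEx

/-!
# Kernel evaluation
-/

set_option maxRecDepth 100000

namespace Makela

namespace Gadget

def h24 : G.exLoop (chunks 24) (2 + 64 * 24) = true := by decide +kernel

def h25 : G.exLoop (chunks 25) (2 + 64 * 25) = true := by decide +kernel

def h26 : G.exLoop (chunks 26) (2 + 64 * 26) = true := by decide +kernel

def h27 : G.exLoop (chunks 27) (2 + 64 * 27) = true := by decide +kernel

def h28 : G.exLoop (chunks 28) (2 + 64 * 28) = true := by decide +kernel

def h29 : G.exLoop (chunks 29) (2 + 64 * 29) = true := by decide +kernel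

def h30 : G.exLoop (chunks 30) (2 + 64 * 30) = true := by decide +kernel

def h31 : G.exLoop (chunks 31) (2 + 64 * 31) = true := by decide +kernel

end Gadget

end Makela
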