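import Pool.Agent.Lib.MP_1f24c5_co.G.GEx

/-!
# Kernel evaluation
-/

set_option maxRecDepth 100000

namespace Makela

namespace Gadget

def h32 : G.exLoop (chunks 32) (2 + 64 * 32) = true := by decide +kernel

def h33 : G.exLoop (chunks 33) (2 + 64 * 33) = true := by decide +kernel

def h34 : G.exLoop (chunks 34) (2 + 64 * 34) = true := by decide +kernel

def h35 : G.exLoop (chunks 35) (2 + 64 * 35) = true := by decide +kernel

def h36 : G.exLoop (chunks 36) (2 + 64 * 36) = true := by decide +kernel

def h37 : G.exLoop (chunks 37) (2 + 64 * 37) = true := by decide +kernel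

def h38 : G.exLoop (chunks 38) (2 + 64 * 38) = true := by decide +kernel

def h39 : G.exLoop (chunks 39) (2 + 64 * 39) = true := by decide +kernel

end Gadget

end Makela
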