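import Pool.Agent.Lib.MP_1f24c5_co.G.GEx

/-!
# Kernel evaluation
-/

set_option maxRecDepth 100000

namespace Makela

namespace Gadget

def h40 : G.exLoop (chunks 40) (2 + 64 * 40) = true := by decide +kernel

def h41 : G.exLoop (chunks 41) (2 + 64 * 41) = true := by decide +kernel

def h42 : G.exLoop (chunks 42) (2 + 64 * 42) = true := by decide +kernel

def h43 : G.exLoop (chunks 43) (2 + 64 * 43) = true := by decide +kernel

def h44 : G.exLoop (chunks 44) (2 + 64 * 44) = true := by decide +kernel

def h45 : G.exLoop (chunks 45) (2 + 64 * 45) = true := by decide +kernel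

def h46 : G.exLoop (chunks 46) (2 + 64 * 46) = true := by decide +kernel

def h47 : G.exLoop (chunks 47) (2 + 64 * 47) = true := by decide +kernel

end Gadget

end Makela
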