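import Pool.Agent.Lib.MP_1f24c5_co.G.GEx

/-!
# Kernel evaluation
-/

set_option maxRecDepth 100000

namespace Makela

namespace Gadget

def h48 : G.exLoop (chunks 48) (2 + 64 * 48) = true := by decide +kernel

def h49 : G.exLoop (chunks 49) (2 + 64 * 49) = true := by decide +kernel

def h50 : G.exLoop (chunks 50) (2 + 64 * 50) = true := by decide +kernel

def h51 : G.exLoop (chunks 51) (2 + 64 * 51) = true := by decide +kernel

def h52 : G.exLoop (chunks 52) (2 + 64 * 52) = true := by decide +kernel

def h53 : G.exLoop (chunks 53) (2 + 64 * 53) = true := by decide +kernel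

def h54 : G.exLoop (chunks 54) (2 + 64 * 54) = true := by decide +kernel

def h55 : G.exLoop (chunks 55) (2 + 64 * 55) = true := by decide +kernel

end Gadget

end Makela
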