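import Pool.Agent.Lib.MP_1f24c5_co.G.GEx

/-!
# Kernel evaluation
-/

set_option maxRecDepth 100000

namespace Makela

namespace Gadget

def h56 : G.exLoop (chunks 56) (2 + 64 * 56) = true := by decide +kernel

def h57 : G.exLoop (chunks 57) (2 + 64 * 57) = true := by decide +kernel

def h58 : G.exLoop (chunks 58) (2 + 64 * 58) = true := by decide +kernel

def h59 : G.exLoop (chunks 59) (2 + 64 * 59) = true := by decide +kernel

def h60 : G.exLoop (chunks 60) (2 + 64 * 60) = true := by decide +kernel

def h61 : G.exLoop (chunks 61) (2 + 64 * 61) = true := by decide +kernel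

def h62 : G.exLoop (chunks 62) (2 + 64 * 62) = true := by decide +kernel

def h63 : G.exLoop (chunks 63) (2 + 64 * 63) = true := by decide +kernel

end Gadget

end Makela
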