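import Pool.Agent.Lib.MP_1f24c5_co.G.GEx

/-!
# Kernel evaluation
-/

set_option maxRecDepth 100000

namespace Makela

namespace Gadget

def h64 : G.exLoop (chunks 64) (2 + 64 * 64) = true := by decide +kernel

def h65 : G.exLoop (chunks 65) (2 + 64 * 65) = true := by decide +kernel

def h66 : G.exLoop (chunks 66) (2 + 64 * 66) = true := by decide +kernel

def h67 : G.exLoop (chunks 67) (2 + 64 * 67) = true := by decide +kernel

def h68 : G.exLoop (chunks 68) (2 + 64 * 68) = true := by decide +kernel

def h69 : G.exLoop (chunks 69) (2 + 64 * 69) = true := by decide +kernel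

def h70 : G.exLoop (chunks 70) (2 + 64 * 70) = true := by decide +kernel

def h71 : G.exLoop (chunks 71) (2 + 64 * 71) = true := by decide +kernel

end Gadget

end Makela
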