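import Pool.Agent.Lib.MP_1f24c5_co.G.GEx

/-!
# Kernel evaluation
-/

set_option maxRecDepth 100000

namespace Makela

namespace Gadget

def d24 : G.loopD (chunks 24) (2 + 64 * 24) = true := by decide +kernel

def d25 : G.loopD (chunks 25) (2 + 64 * 25) = true := by decide +kernel

def d26 : G.loopD (chunks 26) (2 + 64 * 26) = true := by decide +kernel

def d27 : G.loopD (chunks 27) (2 + 64 * 27) = true := by decide +kernel

def d28 : G.loopD (chunks 28) (2 + 64 * 28) = true := by decide +kernel

def d29 : G.loopD (chunks 29) (2 + 64 * 29) = true := by decide +kernel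

def d30 : G.loopD (chunks 30) (2 + 64 * 30) = true := by decide +kernel

def d31 : G.loopD (chunks 31) (2 + 64 * 31) = true := by decide +kernel

def d32 : G.loopD (chunks 32) (2 + 64 * 32) = true := by decide +kernel

def d33 : G.loopD (chunks 33) (2 + 64 * 33) = true := by decide +kernel

def d34 : G.loopD (chunks 34) (2 + 64 * 34) = true := by decide +kernel

def d35 : G.loopD (chunks 35) (2 + 64 * 35) = true := by decide +kernel

def d36 : G.loopD (chunks 36) (2 + 64 * 36) = true := by decide +kernel

def d37 : G.loopD (chunks 37) (2 + 64 * 37) = true := by decide +kernel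

def d38 : G.loopD (chunks 38) (2 + 64 * 38) = true := by decide +kernel

def d39 : G.loopD (chunks 39) (2 + 64 * 39) = true := by decide +kernel

def d40 : G.loopD (chunks 40) (2 + 64 * 40) = true := by decide +kernel

def d41 : G.loopD (chunks 41) (2 + 64 * 41) = true := by decide +kernel

def d42 : G.loopD (chunks 42) (2 + 64 * 42) = true := by decide +kernel

def d43 : G.loopD (chunks 43) (2 + 64 * 43) = true := by decide +kernel

def d44 : G.loopD (chunks 44) (2 + 64 * 44) = true := by decide +kernel

def d45 : G.loopD (chunks 45) (2 + 64 * 45) = true := by decide +kernel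

def d46 : G.loopD (chunks 46) (2 + 64 * 46) = true := by decide +kernel

def d47 : G.loopD (chunks 47) (2 + 64 * 47) = true := by decide +kernel

end Gadget

end Makela
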