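import Pool.Agent.Lib.MP_1f24c5_co.G.GEx

/-!
# Kernel evaluation
-/

set_option maxRecDepth 100000

namespace Makela

namespace Gadget

def h72 : G.exLoop (chunks 72) (2 + 64 * 72) = true := by decide +kernel

def h73 : G.exLoop (chunks 73) (2 + 64 * 73) = true := by decide +kernel

def h74 : G.exLoop (chunks 74) (2 + 64 * 74) = true := by decide +kernel

def h75 : G.exLoop (chunks 75) (2 + 64 * 75) = true := by decide +kernel

def h76 : G.exLoop (chunks 76) (2 + 64 * 76) = true := by decide +kernel

def h77 : G.exLoop (chunks 77) (2 + 64 * 77) = true := by decide +kernel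

def h78 : G.exLoop (chunks 78) (2 + 64 * 78) = true := by decide +kernel

def h79 : G.exLoop (chunks 79) (2 + 64 * 79) = true := by decide +kernel

end Gadget

end Makela
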