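import Pool.Agent.Lib.MP_1f24c5_co.G.GEx

/-!
# Kernel evaluation
-/

set_option maxRecDepth 100000

namespace Makela

namespace Gadget

def h80 : G.exLoop (chunks 80) (2 + 64 * 80) = true := by decide +kernel

def h81 : G.exLoop (chunks 81) (2 + 64 * 81) = true := by decide +kernel

def h82 : G.exLoop (chunks 82) (2 + 64 * 82) = true := by decide +kernel

end Gadget

end Makela
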