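import Pool.Agent.Lib.MP_1f24c5_co.G.GEx

/-!
# Kernel evaluation
-/

set_option maxRecDepth 100000

namespace Makela

namespace Gadget

def z0 : G.loop01 250 (250 * 0) = true := by decide +kernel

def z1 : G.loop01 250 (250 * 1) = true := by decide +kernel

def z2 : G.loop01 250 (250 * 2) = true := by decide +kernel

def z3 : G.loop01 250 (250 * 3) = true := by decide +kernel

def z4 : G.loop01 250 (250 * 4) = true := by decide +kernel

def z5 : G.loop01 250 (250 * 5) = true := by decide +kernel

def z6 : G.loop01 250 (250 * 6) = true := by decide +kernel

def z7 : G.loop01 250 (250 * 7) = true := by decide +kernel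

def z8 : G.loop01 250 (250 * 8) = true := by decide +kernel

def z9 : G.loop01 250 (250 * 9) = true := by decide +kernel

def z10 : G.loop01 250 (250 * 10) = true := by decide +kernel

def z11 : G.loop01 250 (250 * 11) = true := by decide +kernel

def z12 : G.loop01 250 (250 * 12) = true := by decide +kernel

def z13 : G.loop01 250 (250 * 13) = true := by decide +kernel

def z14 : G.loop01 250 (250 * 14) = true := by decide +kernel

def z15 : G.loop01 250 (250 * 15) = true := by decide +kernel

end Gadget

end Makela
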