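import Pool.Agent.Lib.MP_1f24c5_co.G.GEx

/-!
# Kernel evaluation
-/

set_option maxRecDepth 100000

namespace Makela

namespace Gadget

def z16 : G.loop01 250 (250 * 16) = true := by decide +kernel

def z17 : G.loop01 250 (250 * 17) = true := by decide +kernel

def z18 : G.loop01 250 (250 * 18) = true := by decide +kernel

def z19 : G.loop01 250 (250 * 19) = true := by decide +kernel

def z20 : G.loop01 250 (250 * 20) = true := by decide +kernel

def z21 : G.loop01 250 (250 * 21) = true := by decide +kernel

def z22 : G.loop01 250 (250 * 22) = true := by decide +kernel

def z23 : G.loop01 250 (250 * 23) = true := by decide +kernel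

def z24 : G.loop01 250 (250 * 24) = true := by decide +kernel

def z25 : G.loop01 250 (250 * 25) = true := by decide +kernel

def z26 : G.loop01 250 (250 * 26) = true := by decide +kernel

def z27 : G.loop01 250 (250 * 27) = true := by decide +kernel

def z28 : G.loop01 250 (250 * 28) = true := by decide +kernel

def z29 : G.loop01 250 (250 * 29) = true := by decide +kernel

def z30 : G.loop01 250 (250 * 30) = true := by decide +kernel

def z31 : G.loop01 250 (250 * 31) = true := by decide +kernel

end Gadget

end Makela
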