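import Pool.Agent.Lib.MP_1f24c5_co.G.GEx

/-!
# Kernel evaluation
-/

set_option maxRecDepth 100000

namespace Makela

namespace Gadget

def z32 : G.loop01 250 (250 * 32) = true := by decide +kernel

def z33 : G.loop01 250 (250 * 33) = true := by decide +kernel

def z34 : G.loop01 250 (250 * 34) = true := by decide +kernel

def z35 : G.loop01 250 (250 * 35) = true := by decide +kernel

def z36 : G.loop01 250 (250 * 36) = true := by decide +kernel

def z37 : G.loop01 250 (250 * 37) = true := by decide +kernel

def z38 : G.loop01 250 (250 * 38) = true := by decide +kernel

def z39 : G.loop01 250 (250 * 39) = true := by decide +kernel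

def z40 : G.loop01 250 (250 * 40) = true := by decide +kernel

def z41 : G.loop01 250 (250 * 41) = true := by decide +kernel

def z42 : G.loop01 250 (250 * 42) = true := by decide +kernel

def z43 : G.loop01 250 (250 * 43) = true := by decide +kernel

def z44 : G.loop01 250 (250 * 44) = true := by decide +kernel

def z45 : G.loop01 250 (250 * 45) = true := by decide +kernel

def z46 : G.loop01 250 (250 * 46) = true := by decide +kernel

def z47 : G.loop01 250 (250 * 47) = true := by decide +kernel

end Gadget

end Makela
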