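import Pool.Agent.Lib.MP_1f24c5_co.G.GEx

/-!
# Kernel evaluation
-/

set_option maxRecDepth 100000

namespace Makela

namespace Gadget

def z48 : G.loop01 250 (250 * 48) = true := by decide +kernel

def z49 : G.loop01 250 (250 * 49) = true := by decide +kernel

def z50 : G.loop01 250 (250 * 50) = true := by decide +kernel

def z51 : G.loop01 250 (250 * 51) = true := by decide +kernel

def z52 : G.loop01 250 (250 * 52) = true := by decide +kernel

def z53 : G.loop01 250 (250 * 53) = true := by decide +kernel

def z54 : G.loop01 250 (250 * 54) = true := by decide +kernel

def z55 : G.loop01 250 (250 * 55) = true := by decide +kernel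

def z56 : G.loop01 250 (250 * 56) = true := by decide +kernel

def z57 : G.loop01 250 (250 * 57) = true := by decide +kernel

def z58 : G.loop01 250 (250 * 58) = true := by decide +kernel

def z59 : G.loop01 250 (250 * 59) = true := by decide +kernel

def z60 : G.loop01 250 (250 * 60) = true := by decide +kernel

def z61 : G.loop01 250 (250 * 61) = true := by decide +kernel

def z62 : G.loop01 250 (250 * 62) = true := by decide +kernel

def z63 : G.loop01 250 (250 * 63) = true := by decide +kernel

end Gadget

end Makela
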