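import Pool.Agent.Lib.MP_1f24c5_co.G.GEx

/-!
# Kernel evaluation
-/

set_option maxRecDepth 100000

namespace Makela

namespace Gadget

def z80 : G.loop01 250 (250 * 80) = true := by decide +kernel

def z81 : G.loop01 250 (250 * 81) = true := by decide +kernel

def z82 : G.loop01 250 (250 * 82) = true := by decide +kernel

def z83 : G.loop01 250 (250 * 83) = true := by decide +kernel

def z84 : G.loop01 250 (250 * 84) = true := by decide +kernel

def z85 : G.loop01 250 (250 * 85) = true := by decide +kernel

def z86 : G.loop01 250 (250 * 86) = true := by decide +kernel

def z87 : G.loop01 250 (250 * 87) = true := by decide +kernel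

def z88 : G.loop01 250 (250 * 88) = true := by decide +kernel

def z89 : G.loop01 250 (250 * 89) = true := by decide +kernel

def z90 : G.loop01 250 (250 * 90) = true := by decide +kernel

def z91 : G.loop01 250 (250 * 91) = true := by decide +kernel

def z92 : G.loop01 250 (250 * 92) = true := by decide +kernel

def z93 : G.loop01 250 (250 * 93) = true := by decide +kernel

def z94 : G.loop01 250 (250 * 94) = true := by decide +kernel

def z95 : G.loop01 250 (250 * 95) = true := by decide +kernel

end Gadget

end Makela
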