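import Pool.Agent.Lib.MP_1f24c5_co.G.GEx

/-!
# Kernel evaluation
-/

set_option maxRecDepth 100000

namespace Makela

namespace Gadget

def z96 : G.loop01 250 (250 * 96) = true := by decide +kernel

def z97 : G.loop01 250 (250 * 97) = true := by decide +kernel

def z98 : G.loop01 250 (250 * 98) = true := by decide +kernel

def z99 : G.loop01 250 (250 * 99) = true := by decide +kernel

def z100 : G.loop01 250 (250 * 100) = true := by decide +kernel

def z101 : G.loop01 250 (250 * 101) = true := by decide +kernel

def z102 : G.loop01 250 (250 * 102) = true := by decide +kernel

def z103 : G.loop01 250 (250 * 103) = true := by decide +kernel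

def z104 : G.loop01 250 (250 * 104) = true := by decide +kernel

def z105 : G.loop01 250 (250 * 105) = true := by decide +kernel

def z106 : G.loop01 250 (250 * 106) = true := by decide +kernel

def z107 : G.loop01 250 (250 * 107) = true := by decide +kernel

def z108 : G.loop01 250 (250 * 108) = true := by decide +kernel

def z109 : G.loop01 250 (250 * 109) = true := by decide +kernel

def z110 : G.loop01 250 (250 * 110) = true := by decide +kernel

def z111 : G.loop01 250 (250 * 111) = true := by decide +kernel

end Gadget

end Makela
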