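import Pool.Agent.Lib.MP_1f24c5_co.G.GEx

/-!
# Kernel evaluation
-/

set_option maxRecDepth 100000

namespace Makela

namespace Gadget

def z112 : G.loop01 250 (250 * 112) = true := by decide +kernel

def z113 : G.loop01 250 (250 * 113) = true := by decide +kernel

def z114 : G.loop01 250 (250 * 114) = true := by decide +kernel

def z115 : G.loop01 250 (250 * 115) = true := by decide +kernel

def z116 : G.loop01 250 (250 * 116) = true := by decide +kernel

def z117 : G.loop01 250 (250 * 117) = true := by decide +kernel

def z118 : G.loop01 250 (250 * 118) = true := by decide +kernel

def z119 : G.loop01 175 (250 * 119) = true := by decide +kernel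

end Gadget

end Makela
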