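import Pool.Agent.Lib.MP_1f24c5_co.G.GEx

/-!
# Kernel evaluation
-/

set_option maxRecDepth 100000

namespace Makela

namespace Gadget

def d48 : G.loopD (chunks 48) (2 + 64 * 48) = true := by decide +kernel

def d49 : G.loopD (chunks 49) (2 + 64 * 49) = true := by decide +kernel

def d50 : G.loopD (chunks 50) (2 + 64 * 50) = true := by decide +kernel

def d51 : G.loopD (chunks 51) (2 + 64 * 51) = true := by decide +kernel

def d52 : G.loopD (chunks 52) (2 + 64 * 52) = true := by decide +kernel

def d53 : G.loopD (chunks 53) (2 + 64 * 53) = true := by decide +kernel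

def d54 : G.loopD (chunks 54) (2 + 64 * 54) = true := by decide +kernel

def d55 : G.loopD (chunks 55) (2 + 64 * 55) = true := by decide +kernel

def d56 : G.loopD (chunks 56) (2 + 64 * 56) = true := by decide +kernel

def d57 : G.loopD (chunks 57) (2 + 64 * 57) = true := by decide +kernel

def d58 : G.loopD (chunks 58) (2 + 64 * 58) = true := by decide +kernel

def d59 : G.loopD (chunks 59) (2 + 64 * 59) = true := by decide +kernel

def d60 : G.loopD (chunks 60) (2 + 64 * 60) = true := by decide +kernel

def d61 : G.loopD (chunks 61) (2 + 64 * 61) = true := by decide +kernel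

def d62 : G.loopD (chunks 62) (2 + 64 * 62) = true := by decide +kernel

def d63 : G.loopD (chunks 63) (2 + 64 * 63) = true := by decide +kernel

def d64 : G.loopD (chunks 64) (2 + 64 * 64) = true := by decide +kernel

def d65 : G.loopD (chunks 65) (2 + 64 * 65) = true := by decide +kernel

def d66 : G.loopD (chunks 66) (2 + 64 * 66) = true := by decide +kernel

def d67 : G.loopD (chunks 67) (2 + 64 * 67) = true := by decide +kernel

def d68 : G.loopD (chunks 68) (2 + 64 * 68) = true := by decide +kernel

def d69 : G.loopD (chunks 69) (2 + 64 * 69) = true := by decide +kernel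

def d70 : G.loopD (chunks 70) (2 + 64 * 70) = true := by decide +kernel

def d71 : G.loopD (chunks 71) (2 + 64 * 71) = true := by decide +kernel

end Gadget

end Makela
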