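import Pool.Agent.Lib.MP_1f24c5_co.G.GEx

/-!
# Kernel evaluation
-/

set_option maxRecDepth 100000

namespace Makela

namespace Gadget

def d72 : G.loopD (chunks 72) (2 + 64 * 72) = true := by decide +kernel

def d73 : G.loopD (chunks 73) (2 + 64 * 73) = true := by decide +kernel

def d74 : G.loopD (chunks 74) (2 + 64 * 74) = true := by decide +kernel

def d75 : G.loopD (chunks 75) (2 + 64 * 75) = true := by decide +kernel

def d76 : G.loopD (chunks 76) (2 + 64 * 76) = true := by decide +kernel

def d77 : G.loopD (chunks 77) (2 + 64 * 77) = true := by decide +kernel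

def d78 : G.loopD (chunks 78) (2 + 64 * 78) = true := by decide +kernel

def d79 : G.loopD (chunks 79) (2 + 64 * 79) = true := by decide +kernel

def d80 : G.loopD (chunks 80) (2 + 64 * 80) = true := by decide +kernel

def d81 : G.loopD (chunks 81) (2 + 64 * 81) = true := by decide +kernel

def d82 : G.loopD (chunks 82) (2 + 64 * 82) = true := by decide +kernel

def m83 : G.loopM 64 (2 + 64 * 83) = true := by decide +kernel

def m84 : G.loopM 64 (2 + 64 * 84) = true := by decide +kernel

def m85 : G.loopM 64 (2 + 64 * 85) = true := by decide +kernel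

def m86 : G.loopM 64 (2 + 64 * 86) = true := by decide +kernel

def m87 : G.loopM 64 (2 + 64 * 87) = true := by decide +kernel

def m88 : G.loopM 64 (2 + 64 * 88) = true := by decide +kernel

def m89 : G.loopM 64 (2 + 64 * 89) = true := by decide +kernel

def m90 : G.loopM 64 (2 + 64 * 90) = true := by decide +kernel

def m91 : G.loopM 64 (2 + 64 * 91) = true := by decide +kernel

def m92 : G.loopM 64 (2 + 64 * 92) = true := by decide +kernel

def m93 : G.loopM 64 (2 + 64 * 93) = true := by decide +kernel

def m94 : G.loopM 64 (2 + 64 * 94) = true := by decide +kernel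

def m95 : G.loopM 64 (2 + 64 * 95) = true := by decide +kernel

end Gadget

end Makela
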