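import Pool.Agent.Lib.MP_1f24c5_co.G.GEx

/-!
# Kernel evaluation
-/

set_option maxRecDepth 100000

namespace Makela

namespace Gadget

def m96 : G.loopM 64 (2 + 64 * 96) = true := by decide +kernel

def m97 : G.loopM 64 (2 + 64 * 97) = true := by decide +kernel

def m98 : G.loopM 64 (2 + 64 * 98) = true := by decide +kernel

def m99 : G.loopM 64 (2 + 64 * 99) = true := by decide +kernel

def m100 : G.loopM 64 (2 + 64 * 100) = true := by decide +kernel

def m101 : G.loopM 64 (2 + 64 * 101) = true := by decide +kernel

def m102 : G.loopM 64 (2 + 64 * 102) = true := by decide +kernel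

def m103 : G.loopM 64 (2 + 64 * 103) = true := by decide +kernel

def m104 : G.loopM 64 (2 + 64 * 104) = true := by decide +kernel

def m105 : G.loopM 64 (2 + 64 * 105) = true := by decide +kernel

def m106 : G.loopM 64 (2 + 64 * 106) = true := by decide +kernel

def m107 : G.loopM 64 (2 + 64 * 107) = true := by decide +kernel

def m108 : G.loopM 64 (2 + 64 * 108) = true := by decide +kernel

def m109 : G.loopM 64 (2 + 64 * 109) = true := by decide +kernel

def m110 : G.loopM 64 (2 + 64 * 110) = true := by decide +kernel

def m111 : G.loopM 64 (2 + 64 * 111) = true := by decide +kernel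

def m112 : G.loopM 64 (2 + 64 * 112) = true := by decide +kernel

def m113 : G.loopM 64 (2 + 64 * 113) = true := by decide +kernel

def m114 : G.loopM 64 (2 + 64 * 114) = true := by decide +kernel

def m115 : G.loopM 64 (2 + 64 * 115) = true := by decide +kernel

def m116 : G.loopM 64 (2 + 64 * 116) = true := by decide +kernel

def m117 : G.loopM 64 (2 + 64 * 117) = true := by decide +kernel

def m118 : G.loopM 64 (2 + 64 * 118) = true := by decide +kernel

def m119 : G.loopM 64 (2 + 64 * 119) = true := by decide +kernel

end Gadget

end Makela
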