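import Pool.Agent.Lib.MP_1f24c5_co.G.GEx

/-!
# Kernel evaluation
-/

set_option maxRecDepth 100000

namespace Makela

namespace Gadget

def m120 : G.loopM 64 (2 + 64 * 120) = true := by decide +kernel

def m121 : G.loopM 64 (2 + 64 * 121) = true := by decide +kernel

def m122 : G.loopM 64 (2 + 64 * 122) = true := by decide +kernel

def m123 : G.loopM 64 (2 + 64 * 123) = true := by decide +kernel

def m124 : G.loopM 64 (2 + 64 * 124) = true := by decide +kernel

def m125 : G.loopM 64 (2 + 64 * 125) = true := by decide +kernel

def m126 : G.loopM 64 (2 + 64 * 126) = true := by decide +kernel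

def m127 : G.loopM 64 (2 + 64 * 127) = true := by decide +kernel

def m128 : G.loopM 64 (2 + 64 * 128) = true := by decide +kernel

def m129 : G.loopM 64 (2 + 64 * 129) = true := by decide +kernel

def m130 : G.loopM 64 (2 + 64 * 130) = true := by decide +kernel

def m131 : G.loopM 64 (2 + 64 * 131) = true := by decide +kernel

def m132 : G.loopM 64 (2 + 64 * 132) = true := by decide +kernel

def m133 : G.loopM 64 (2 + 64 * 133) = true := by decide +kernel

def m134 : G.loopM 64 (2 + 64 * 134) = true := by decide +kernel

def m135 : G.loopM 64 (2 + 64 * 135) = true := by decide +kernel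

def m136 : G.loopM 64 (2 + 64 * 136) = true := by decide +kernel

def m137 : G.loopM 64 (2 + 64 * 137) = true := by decide +kernel

def m138 : G.loopM 64 (2 + 64 * 138) = true := by decide +kernel

def m139 : G.loopM 64 (2 + 64 * 139) = true := by decide +kernel

def m140 : G.loopM 64 (2 + 64 * 140) = true := by decide +kernel

def m141 : G.loopM 64 (2 + 64 * 141) = true := by decide +kernel

def m142 : G.loopM 64 (2 + 64 * 142) = true := by decide +kernel

def m143 : G.loopM 64 (2 + 64 * 143) = true := by decide +kernel

end Gadget

end Makela
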