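import Pool.Agent.Lib.MP_1f24c5_co.G.GEx

/-!
# Kernel evaluation
-/

set_option maxRecDepth 100000

namespace Makela

namespace Gadget

def m144 : G.loopM 64 (2 + 64 * 144) = true := by decide +kernel

def m145 : G.loopM 64 (2 + 64 * 145) = true := by decide +kernel

def m146 : G.loopM 64 (2 + 64 * 146) = true := by decide +kernel

def m147 : G.loopM 64 (2 + 64 * 147) = true := by decide +kernel

def m148 : G.loopM 64 (2 + 64 * 148) = true := by decide +kernel

def m149 : G.loopM 64 (2 + 64 * 149) = true := by decide +kernel

def m150 : G.loopM 64 (2 + 64 * 150) = true := by decide +kernel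

def m151 : G.loopM 64 (2 + 64 * 151) = true := by decide +kernel

def m152 : G.loopM 64 (2 + 64 * 152) = true := by decide +kernel

def m153 : G.loopM 64 (2 + 64 * 153) = true := by decide +kernel

def m154 : G.loopM 64 (2 + 64 * 154) = true := by decide +kernel

def m155 : G.loopM 64 (2 + 64 * 155) = true := by decide +kernel

def m156 : G.loopM 64 (2 + 64 * 156) = true := by decide +kernel

def m157 : G.loopM 64 (2 + 64 * 157) = true := by decide +kernel

def m158 : G.loopM 64 (2 + 64 * 158) = true := by decide +kernel

def m159 : G.loopM 64 (2 + 64 * 159) = true := by decide +kernel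

def m160 : G.loopM 64 (2 + 64 * 160) = true := by decide +kernel

def m161 : G.loopM 64 (2 + 64 * 161) = true := by decide +kernel

def m162 : G.loopM 64 (2 + 64 * 162) = true := by decide +kernel

def m163 : G.loopM 64 (2 + 64 * 163) = true := by decide +kernel

def m164 : G.loopM 64 (2 + 64 * 164) = true := by decide +kernel

def m165 : G.loopM 64 (2 + 64 * 165) = true := by decide +kernel

def m166 : G.loopM 64 (2 + 64 * 166) = true := by decide +kernel

def m167 : G.loopM 64 (2 + 64 * 167) = true := by decide +kernel

end Gadget

end Makela
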