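import Pool.Agent.Lib.MP_1f24c5_co.G.GEx

/-!
# Kernel evaluation
-/

set_option maxRecDepth 100000

namespace Makela

namespace Gadget

def m168 : G.loopM 64 (2 + 64 * 168) = true := by decide +kernel

def m169 : G.loopM 64 (2 + 64 * 169) = true := by decide +kernel

def m170 : G.loopM 64 (2 + 64 * 170) = true := by decide +kernel

def m171 : G.loopM 64 (2 + 64 * 171) = true := by decide +kernel

def m172 : G.loopM 64 (2 + 64 * 172) = true := by decide +kernel

def m173 : G.loopM 64 (2 + 64 * 173) = true := by decide +kernel

def m174 : G.loopM 64 (2 + 64 * 174) = true := by decide +kernel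

def m175 : G.loopM 64 (2 + 64 * 175) = true := by decide +kernel

def m176 : G.loopM 64 (2 + 64 * 176) = true := by decide +kernel

def m177 : G.loopM 64 (2 + 64 * 177) = true := by decide +kernel

def m178 : G.loopM 64 (2 + 64 * 178) = true := by decide +kernel

def m179 : G.loopM 64 (2 + 64 * 179) = true := by decide +kernel

def m180 : G.loopM 64 (2 + 64 * 180) = true := by decide +kernel

def m181 : G.loopM 64 (2 + 64 * 181) = true := by decide +kernel

def m182 : G.loopM 64 (2 + 64 * 182) = true := by decide +kernel

def m183 : G.loopM 64 (2 + 64 * 183) = true := by decide +kernel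

def m184 : G.loopM 64 (2 + 64 * 184) = true := by decide +kernel

def m185 : G.loopM 64 (2 + 64 * 185) = true := by decide +kernel

def m186 : G.loopM 64 (2 + 64 * 186) = true := by decide +kernel

def m187 : G.loopM 64 (2 + 64 * 187) = true := by decide +kernel

def m188 : G.loopM 64 (2 + 64 * 188) = true := by decide +kernel

def m189 : G.loopM 64 (2 + 64 * 189) = true := by decide +kernel

def m190 : G.loopM 64 (2 + 64 * 190) = true := by decide +kernel

def m191 : G.loopM 64 (2 + 64 * 191) = true := by decide +kernel

end Gadget

end Makela
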