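import Pool.Agent.Lib.MP_1f24c5_co.G.GEx

/-!
# Kernel evaluation
-/

set_option maxRecDepth 100000

namespace Makela

namespace Gadget

def m192 : G.loopM 64 (2 + 64 * 192) = true := by decide +kernel

def m193 : G.loopM 64 (2 + 64 * 193) = true := by decide +kernel

def m194 : G.loopM 64 (2 + 64 * 194) = true := by decide +kernel

def m195 : G.loopM 64 (2 + 64 * 195) = true := by decide +kernel

def m196 : G.loopM 64 (2 + 64 * 196) = true := by decide +kernel

def m197 : G.loopM 64 (2 + 64 * 197) = true := by decide +kernel

def m198 : G.loopM 64 (2 + 64 * 198) = true := by decide +kernel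

def m199 : G.loopM 64 (2 + 64 * 199) = true := by decide +kernel

def m200 : G.loopM 64 (2 + 64 * 200) = true := by decide +kernel

def m201 : G.loopM 64 (2 + 64 * 201) = true := by decide +kernel

def m202 : G.loopM 64 (2 + 64 * 202) = true := by decide +kernel

def m203 : G.loopM 64 (2 + 64 * 203) = true := by decide +kernel

def m204 : G.loopM 64 (2 + 64 * 204) = true := by decide +kernel

def m205 : G.loopM 64 (2 + 64 * 205) = true := by decide +kernel

def m206 : G.loopM 64 (2 + 64 * 206) = true := by decide +kernel

def m207 : G.loopM 64 (2 + 64 * 207) = true := by decide +kernel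

def m208 : G.loopM 64 (2 + 64 * 208) = true := by decide +kernel

def m209 : G.loopM 64 (2 + 64 * 209) = true := by decide +kernel

def m210 : G.loopM 64 (2 + 64 * 210) = true := by decide +kernel

def m211 : G.loopM 64 (2 + 64 * 211) = true := by decide +kernel

def m212 : G.loopM 64 (2 + 64 * 212) = true := by decide +kernel

def m213 : G.loopM 64 (2 + 64 * 213) = true := by decide +kernel

def m214 : G.loopM 64 (2 + 64 * 214) = true := by decide +kernel

def m215 : G.loopM 64 (2 + 64 * 215) = true := by decide +kernel

end Gadget

end Makela
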