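import Mathlib
import Pool.Agent.Lib.MP_1f24c5_co.Prog
import Pool.Agent.Lib.MP_1f24c5_co.G.GK0
import Pool.Agent.Lib.MP_1f24c5_co.G.GK1
import Pool.Agent.Lib.MP_1f24c5_co.G.GK2
import Pool.Agent.Lib.MP_1f24c5_co.G.GK3
import Pool.Agent.Lib.MP_1f24c5_co.G.GK4
import Pool.Agent.Lib.MP_1f24c5_co.G.GK5
import Pool.Agent.Lib.MP_1f24c5_co.G.GK6
import Pool.Agent.Lib.MP_1f24c5_co.G.GK7
import Pool.Agent.Lib.MP_1f24c5_co.G.GK8
import Pool.Agent.Lib.MP_1f24c5_co.G.GK9
import Pool.Agent.Lib.MP_1f24c5_co.G.GK10
import Pool.Agent.Lib.MP_1f24c5_co.G.GK11
import Pool.Agent.Lib.MP_1f24c5_co.G.GK12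
import Pool.Agent.Lib.MP_1f24c5_co.G.GK13
import Pool.Agent.Lib.MP_1f24c5_co.G.GK14
import Pool.Agent.Lib.MP_1f24c5_co.G.GK15
import Pool.Agent.Lib.MP_1f24c5_co.G.GK16
import Pool.Agent.Lib.MP_1f24c5_co.G.GK17
import Pool.Agent.Lib.MP_1f24c5_co.G.GK18
import Pool.Agent.Lib.MP_1f24c5_co.G.GK19
import Pool.Agent.Lib.MP_1f24c5_co.G.GK20
import Pool.Agent.Lib.MP_1f24c5_co.G.GK21
import Pool.Agent.Lib.MP_1f24c5_co.G.GK22
import Pool.Agent.Lib.MP_1f24c5_co.G.GK23
import Pool.Agent.Lib.MP_1f24c5_co.G.GK24
import Pool.Agent.Lib.MP_1f24c5_co.G.GK25
import Pool.Agent.Lib.MP_1f24c5_co.G.GK26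
import Pool.Agent.Lib.MP_1f24c5_co.G.GK27
import Pool.Agent.Lib.MP_1f24c5_co.G.GK28
import Pool.Agent.Lib.MP_1f24c5_co.G.GK29

/-!
# Assembly for the gadget
-/

set_option maxRecDepth 100000

namespace Makela

namespace Gadget

lemma allD (k : ℕ) (hk : k < 83) : G.loopD (chunks k) (2 + 64 * k) = true := by
  interval_cases k
  · exact d0
  · exact d1
  · exact d2
  · exact d3
  · exact d4
  · exact d5
  · exact d6
  · exact d7
  · exact d8
  · exact d9
  · exact d10
  · exact d11
  · exact d12
  · exact d13
  · exact d14
  · exact d15
  · exact d16
  · exact d17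
  · exact d18
  · exact d19
  · exact d20
  · exact d21
  · exact d22
  · exact d23
  · exact d24
  · exact d25
  · exact d26
  · exact d27
  · exact d28
  · exact d29
  · exact d30
  · exact d31
  · exact d32
  · exact d33
  · exact d34
  · exact d35
  · exact d36
  · exact d37
  · exact d38
  · exact d39
  · exact d40
  · exact d41
  · exact d42
  · exact d43
  · exact d44
  · exact d45
  · exact d46
  · exact d47
  · exact d48
  · exact d49
  · exact d50
  · exact d51
  · exact d52
  · exact d53
  · exact d54
  · exact d55
  · exact d56
  · exact d57
  · exact d58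
  · exact d59
  · exact d60
  · exact d61
  · exact d62
  · exact d63
  · exact d64
  · exact d65
  · exact d66
  · exact d67
  · exact d68
  · exact d69
  · exact d70
  · exact d71
  · exact d72
  · exact d73
  · exact d74
  · exact d75
  · exact d76
  · exact d77
  · exact d78
  · exact d79
  · exact d80
  · exact d81
  · exact d82

lemma allH (k : ℕ) (hk : k < 83) : G.exLoop (chunks k) (2 + 64 * k) = true := by
  interval_cases k
  · exact h0
  · exact h1
  · exact h2
  · exact h3
  · exact h4
  · exact h5
  · exact h6
  · exact h7
  · exact h8
  · exact h9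
  · exact h10
  · exact h11
  · exact h12
  · exact h13
  · exact h14
  · exact h15
  · exact h16
  · exact h17
  · exact h18
  · exact h19
  · exact h20
  · exact h21
  · exact h22
  · exact h23
  · exact h24
  · exact h25
  · exact h26
  · exact h27
  · exact h28
  · exact h29
  · exact h30
  · exact h31
  · exact h32
  · exact h33
  · exact h34
  · exact h35
  · exact h36
  · exact h37
  · exact h38
  · exact h39
  · exact h40
  · exact h41
  · exact h42
  · exact h43
  · exact h44
  · exact h45
  · exact h46
  · exact h47
  · exact h48
  · exact h49
  · exact h50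
  · exact h51
  · exact h52
  · exact h53
  · exact h54
  · exact h55
  · exact h56
  · exact h57
  · exact h58
  · exact h59
  · exact h60
  · exact h61
  · exact h62
  · exact h63
  · exact h64
  · exact h65
  · exact h66
  · exact h67
  · exact h68
  · exact h69
  · exact h70
  · exact h71
  · exact h72
  · exact h73
  · exact h74
  · exact h75
  · exact h76
  · exact h77
  · exact h78
  · exact h79
  · exact h80
  · exact h81
  · exact h82

lemma allLen (k : ℕ) (hk : k < 83) : (chunks k).length = 64 := by
  interval_cases k
  · decide +kernel
  · decide +kernel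
  · decide +kernel
  · decide +kernel
  · decide +kernel
  · decide +kernel
  · decide +kernel
  · decide +kernel
  · decide +kernel
  · decide +kernel
  · decide +kernel
  · decide +kernel
  · decide +kernel
  · decide +kernel
  · decide +kernel
  · decide +kernel
  · decide +kernel
  · decide +kernel
  · decide +kernel
  · decide +kernel
  · decide +kernel
  · decide +kernel
  · decide +kernel
  · decide +kernel
  · decide +kernel
  · decide +kernel
  · decide +kernel
  · decide +kernel
  · decide +kernel
  · decide +kernel
  · decide +kernel
  · decide +kernel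
  · decide +kernel
  · decide +kernel
  · decide +kernel
  · decide +kernel
  · decide +kernel
  · decide +kernel
  · decide +kernel
  · decide +kernel
  · decide +kernel
  · decide +kernel
  · decide +kernel
  · decide +kernel
  · decide +kernel
  · decide +kernel
  · decide +kernel
  · decide +kernel
  · decide +kernel
  · decide +kernel
  · decide +kernel
  · decide +kernel
  · decide +kernel
  · decide +kernel
  · decide +kernel
  · decide +kernel
  · decide +kernel
  · decide +kernel
  · decide +kernel
  · decide +kernel
  · decide +kernel
  · decide +kernel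
  · decide +kernel
  · decide +kernel
  · decide +kernel
  · decide +kernel
  · decide +kernel
  · decide +kernel
  · decide +kernel
  · decide +kernel
  · decide +kernel
  · decide +kernel
  · decide +kernel
  · decide +kernel
  · decide +kernel
  · decide +kernel
  · decide +kernel
  · decide +kernel
  · decide +kernel
  · decide +kernel
  · decide +kernel
  · decide +kernel
  · decide +kernel

lemma allM (k : ℕ) (h1 : 83 ≤ k) (hk : k < 234) : G.loopM 64 (2 + 64 * k) = true := by
  interval_cases k
  · exact m83
  · exact m84
  · exact m85
  · exact m86
  · exact m87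
  · exact m88
  · exact m89
  · exact m90
  · exact m91
  · exact m92
  · exact m93
  · exact m94
  · exact m95
  · exact m96
  · exact m97
  · exact m98
  · exact m99
  · exact m100
  · exact m101
  · exact m102
  · exact m103
  · exact m104
  · exact m105
  · exact m106
  · exact m107
  · exact m108
  · exact m109
  · exact m110
  · exact m111
  · exact m112
  · exact m113
  · exact m114
  · exact m115
  · exact m116
  · exact m117
  · exact m118
  · exact m119
  · exact m120
  · exact m121
  · exact m122
  · exact m123
  · exact m124
  · exact m125
  · exact m126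
  · exact m127
  · exact m128
  · exact m129
  · exact m130
  · exact m131
  · exact m132
  · exact m133
  · exact m134
  · exact m135
  · exact m136
  · exact m137
  · exact m138
  · exact m139
  · exact m140
  · exact m141
  · exact m142
  · exact m143
  · exact m144
  · exact m145
  · exact m146
  · exact m147
  · exact m148
  · exact m149
  · exact m150
  · exact m151
  · exact m152
  · exact m153
  · exact m154
  · exact m155
  · exact m156
  · exact m157
  · exact m158
  · exact m159
  · exact m160
  · exact m161
  · exact m162
  · exact m163
  · exact m164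
  · exact m165
  · exact m166
  · exact m167
  · exact m168
  · exact m169
  · exact m170
  · exact m171
  · exact m172
  · exact m173
  · exact m174
  · exact m175
  · exact m176
  · exact m177
  · exact m178
  · exact m179
  · exact m180
  · exact m181
  · exact m182
  · exact m183
  · exact m184
  · exact m185
  · exact m186
  · exact m187
  · exact m188
  · exact m189
  · exact m190
  · exact m191
  · exact m192
  · exact m193
  · exact m194
  · exact m195
  · exact m196
  · exact m197
  · exact m198
  · exact m199
  · exact m200
  · exact m201
  · exact m202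
  · exact m203
  · exact m204
  · exact m205
  · exact m206
  · exact m207
  · exact m208
  · exact m209
  · exact m210
  · exact m211
  · exact m212
  · exact m213
  · exact m214
  · exact m215
  · exact m216
  · exact m217
  · exact m218
  · exact m219
  · exact m220
  · exact m221
  · exact m222
  · exact m223
  · exact m224
  · exact m225
  · exact m226
  · exact m227
  · exact m228
  · exact m229
  · exact m230
  · exact m231
  · exact m232
  · exact m233

lemma chunks_nil (k : ℕ) (h1 : 83 ≤ k) : chunks k = [] := by
  obtain ⟨j, rfl⟩ := Nat.exists_eq_add_of_le h1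
  rw [Nat.add_comm]
  rfl

lemma allZ (k : ℕ) (hk : k < 120) : G.loop01 (cond (Nat.beq k 119) 175 250) (250 * k) = true := by
  interval_cases k
  · exact z0
  · exact z1
  · exact z2
  · exact z3
  · exact z4
  · exact z5
  · exact z6
  · exact z7
  · exact z8
  · exact z9
  · exact z10
  · exact z11
  · exact z12
  · exact z13
  · exact z14
  · exact z15
  · exact z16
  · exact z17
  · exact z18
  · exact z19
  · exact z20
  · exact z21
  · exact z22
  · exact z23
  · exact z24
  · exact z25
  · exact z26
  · exact z27
  · exact z28
  · exact z29
  · exact z30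
  · exact z31
  · exact z32
  · exact z33
  · exact z34
  · exact z35
  · exact z36
  · exact z37
  · exact z38
  · exact z39
  · exact z40
  · exact z41
  · exact z42
  · exact z43
  · exact z44
  · exact z45
  · exact z46
  · exact z47
  · exact z48
  · exact z49
  · exact z50
  · exact z51
  · exact z52
  · exact z53
  · exact z54
  · exact z55
  · exact z56
  · exact z57
  · exact z58
  · exact z59
  · exact z60
  · exact z61
  · exact z62
  · exact z63
  · exact z64
  · exact z65
  · exact z66
  · exact z67
  · exact z68
  · exact z69
  · exact z70
  · exact z71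
  · exact z72
  · exact z73
  · exact z74
  · exact z75
  · exact z76
  · exact z77
  · exact z78
  · exact z79
  · exact z80
  · exact z81
  · exact z82
  · exact z83
  · exact z84
  · exact z85
  · exact z86
  · exact z87
  · exact z88
  · exact z89
  · exact z90
  · exact z91
  · exact z92
  · exact z93
  · exact z94
  · exact z95
  · exact z96
  · exact z97
  · exact z98
  · exact z99
  · exact z100
  · exact z101
  · exact z102
  · exact z103
  · exact z104
  · exact z105
  · exact z106
  · exact z107
  · exact z108
  · exact z109
  · exact z110
  · exact z111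
  · exact z112
  · exact z113
  · exact z114
  · exact z115
  · exact z116
  · exact z117
  · exact z118
  · exact z119

theorem word : ∃ w : ℕ → Fin 3, ∀ i n : ℕ, 2 ≤ n →
      ¬ (∀ a : Fin 3,
          ((Finset.range n).filter (fun k => w (i + k) = a)).card =
          ((Finset.range n).filter (fun k => w (i + n + k) = a)).card) := by
  refine G.final rfl rfl cert0 ?_ ?_ ?_ (fun e => (chunks ((e - 2) / 64)).getD ((e - 2) % 64) [])
    ?_ ?_ (409) (17) (0) (851) (by norm_num) ?_ ?_ (by decide +kernel) (by decide +kernel)
  · intro β
    cases β
    · exact certX0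
    · exact certX1
  · intro β
    cases β
    · exact certP0
    · exact certP1
  · intro r hr
    have hr' : r < 29925 := hr
    have h := G.loop01_sound _ _ (allZ (r / 250) (by omega)) (r % 250) (by
      by_cases h5 : r / 250 = 119
      · have h6 : Nat.beq (r / 250) 119 = true := by rw [h5]; rfl
        rw [h6]
        simp only [cond_true]
        omega
      · have h6 : Nat.beq (r / 250) 119 = false := by
          rcases hb : Nat.beq (r / 250) 119 with _ | _
          · rfl
          · exact absurd (Nat.eq_of_beq_eq_true hb) h5
        rw [h6]
        simp only [cond_false]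
        omega)
    have e1 : 250 * (r / 250) + r % 250 = r := Nat.div_add_mod r 250
    rwa [e1] at h
  · intro e h2 h3
    have h3' : 2 * e ≤ 29925 := h3
    have e1 : 2 + 64 * ((e - 2) / 64) + (e - 2) % 64 = e := by omega
    by_cases h4 : (e - 2) / 64 < 83
    · have h := G.loopD_sound _ _ (allD _ h4) ((e - 2) % 64) (by
        rw [allLen _ h4]
        exact Nat.mod_lt _ (by norm_num))
      rwa [e1] at h
    · have h := G.loopM_sound _ _ (allM ((e - 2) / 64) (by omega) (by omega)) ((e - 2) % 64)
        (Nat.mod_lt _ (by norm_num))
      rw [e1] at h
      rw [chunks_nil _ (by omega)]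
      simpa using h
  · intro e h2 h3
    have e1 : 2 + 64 * ((e - 2) / 64) + (e - 2) % 64 = e := by omega
    by_cases h4 : (e - 2) / 64 < 83
    · have h := G.exLoop_sound _ _ (allH _ h4) ((e - 2) % 64)
      rwa [e1] at h
    · rw [chunks_nil _ (by omega)]
      simp [Dat.exAll]
  · decide +kernel
  · decide +kernel

end Gadget

end Makela
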