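import Pool.Agent.Lib.MP_1f24c5_co.G.GEx

/-!
# Kernel evaluation
-/

set_option maxRecDepth 100000

namespace Makela

namespace Gadget

def h8 : G.exLoop (chunks 8) (2 + 64 * 8) = true := by decide +kernel

def h9 : G.exLoop (chunks 9) (2 + 64 * 9) = true := by decide +kernel

def h10 : G.exLoop (chunks 10) (2 + 64 * 10) = true := by decide +kernel

def h11 : G.exLoop (chunks 11) (2 + 64 * 11) = true := by decide +kernel

def h12 : G.exLoop (chunks 12) (2 + 64 * 12) = true := by decide +kernel

def h13 : G.exLoop (chunks 13) (2 + 64 * 13) = true := by decide +kernel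

def h14 : G.exLoop (chunks 14) (2 + 64 * 14) = true := by decide +kernel

def h15 : G.exLoop (chunks 15) (2 + 64 * 15) = true := by decide +kernel

end Gadget

end Makela
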