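import Pool.Agent.Lib.MP_1f24c5_co.G.GEx

/-!
# Kernel evaluation
-/

set_option maxRecDepth 100000

namespace Makela

namespace Gadget

def z64 : G.loop01 250 (250 * 64) = true := by decide +kernel

def z65 : G.loop01 250 (250 * 65) = true := by decide +kernel

def z66 : G.loop01 250 (250 * 66) = true := by decide +kernel

def z67 : G.loop01 250 (250 * 67) = true := by decide +kernel

def z68 : G.loop01 250 (250 * 68) = true := by decide +kernel

def z69 : G.loop01 250 (250 * 69) = true := by decide +kernel

def z70 : G.loop01 250 (250 * 70) = true := by decide +kernel

def z71 : G.loop01 250 (250 * 71) = true := by decide +kernel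

def z72 : G.loop01 250 (250 * 72) = true := by decide +kernel

def z73 : G.loop01 250 (250 * 73) = true := by decide +kernel

def z74 : G.loop01 250 (250 * 74) = true := by decide +kernel

def z75 : G.loop01 250 (250 * 75) = true := by decide +kernel

def z76 : G.loop01 250 (250 * 76) = true := by decide +kernel

def z77 : G.loop01 250 (250 * 77) = true := by decide +kernel

def z78 : G.loop01 250 (250 * 78) = true := by decide +kernel

def z79 : G.loop01 250 (250 * 79) = true := by decide +kernel

end Gadget

end Makela
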